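import Pool.Agent.Lib.MP_a9e7a9_an.Hilbert

set_option autoImplicit false

namespace Pool.Agent.Results.MP_a9e7a9_an.MeanAluthgeFixedPoints

open Pool.Agent.Lib.MP_a9e7a9_an
open scoped InnerProductSpace

variable {H : Type*} [NormedAddCommGroup H] [InnerProductSpace ℂ H] [CompleteSpace H]

/-- `V` is the partial isometry of the canonical polar decomposition `T = V |T|`: a partial
isometry (`V V* V = V`) with `ker V = ker T` and `V |T| = T`, where `|T| = (T* T)^{1/2}`. -/
def IsPolarPart (T V : H →L[ℂ] H) : Prop :=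
  V * star V * V = V ∧ (∀ x : H, V x = 0 ↔ T x = 0) ∧ V * CFC.abs T = T

/-- The `μ`-Aluthge transform `|T|^μ V |T|^{1-μ}` computed with the polar part `V` of `T`. -/
noncomputable def aluthge (T V : H →L[ℂ] H) (μ : ℝ) : H →L[ℂ] H :=
  CFC.abs T ^ μ * V * CFC.abs T ^ (1 - μ)

lemma norm_abs_apply (T : H →L[ℂ] H) (x : H) : ‖CFC.abs T x‖ = ‖T x‖ := by
  have h1 : CFC.abs T * CFC.abs T = star T * T := CFC.abs_mul_abs T
  have h2 : IsSelfAdjoint (CFC.abs T) := (CFC.abs_nonneg T).isSelfAdjoint
  have h3 : ⟪CFC.abs T x, CFC.abs T x⟫_ℂ = ⟪T x, T x⟫_ℂ := by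
    have e1 : ⟪CFC.abs T x, CFC.abs T x⟫_ℂ = ⟪x, (star (CFC.abs T) * CFC.abs T) x⟫_ℂ := by
      rw [ContinuousLinearMap.star_eq_adjoint, mul_apply_eq_comp,
        ContinuousLinearMap.adjoint_inner_right]
    have e2 : ⟪T x, T x⟫_ℂ = ⟪x, (star T * T) x⟫_ℂ := by
      rw [ContinuousLinearMap.star_eq_adjoint, mul_apply_eq_comp,
        ContinuousLinearMap.adjoint_inner_right]
    rw [e1, e2, h2.star_eq, h1]
  rw [inner_self_eq_norm_sq_to_K, inner_self_eq_norm_sq_to_K] at h3
  have h4 : ‖CFC.abs T x‖ ^ 2 = ‖T x‖ ^ 2 := by exact_mod_cast h3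
  exact (sq_eq_sq₀ (norm_nonneg _) (norm_nonneg _)).1 h4

lemma abs_apply_eq_zero_iff (T : H →L[ℂ] H) (x : H) : CFC.abs T x = 0 ↔ T x = 0 := by
  rw [← norm_eq_zero, norm_abs_apply, norm_eq_zero]

/-- Every bounded operator has exactly one canonical polar part, so the transforms below are
functions of `T`. -/
theorem existsUnique_polarPart (T : H →L[ℂ] H) : ∃! V : H →L[ℂ] H, IsPolarPart T V := by
  set P := CFC.abs T with hP
  have hPs : IsSelfAdjoint P := (CFC.abs_nonneg T).isSelfAdjoint
  let K : Submodule ℂ H := (LinearMap.range P.toLinearMap).topologicalClosure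
  have hKc : IsClosed (K : Set H) := Submodule.isClosed_topologicalClosure _
  have : CompleteSpace K := hKc.completeSpace_coe
  have hmem : ∀ x : H, P x ∈ K := fun x => Submodule.le_topologicalClosure _ ⟨x, rfl⟩
  let e : H →ₗ[ℂ] K := P.toLinearMap.codRestrict K hmem
  have he : ∀ x, (e x : H) = P x := fun x => rfl
  have hdense : DenseRange e := by
    intro y
    rw [closure_subtype]
    have h1 : ((↑) : K → H) '' Set.range e = (LinearMap.range P.toLinearMap : Set H) := by
      ext z
      constructor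
      · rintro ⟨_, ⟨x, rfl⟩, rfl⟩
        exact ⟨x, rfl⟩
      · rintro ⟨x, rfl⟩
        exact ⟨e x, ⟨x, rfl⟩, rfl⟩
    rw [h1]
    exact y.2
  have hnorm : ∀ x, ‖T.toLinearMap x‖ ≤ 1 * ‖e x‖ := by
    intro x
    rw [one_mul]
    have : ‖e x‖ = ‖P x‖ := rfl
    rw [this, hP, norm_abs_apply]
    exact le_rfl
  let V0 : K →L[ℂ] H := T.toLinearMap.extendOfNorm e
  have hV0 : ∀ x, V0 (e x) = T x := fun x => LinearMap.extendOfNorm_eq hdense ⟨1, hnorm⟩ x
  have hV0norm : ∀ y : K, ‖V0 y‖ = ‖y‖ := by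
    intro y
    refine hdense.induction_on (p := fun y => ‖V0 y‖ = ‖y‖) y
      (isClosed_eq (by fun_prop) (by fun_prop)) (fun x => ?_)
    rw [hV0]
    show ‖T x‖ = ‖P x‖
    rw [hP, norm_abs_apply]
  have hperp : ∀ x : H, x ∈ Kᗮ ↔ T x = 0 := by
    intro x
    rw [← abs_apply_eq_zero_iff, ← hP]
    have h1 : Kᗮ = (LinearMap.range P.toLinearMap)ᗮ := Submodule.orthogonal_closure _
    rw [h1, Submodule.mem_orthogonal]
    constructor
    · intro h
      have h2 := h (P (P x)) ⟨P x, rfl⟩
      have h3 : ⟪P (P x), x⟫_ℂ = ⟪P x, P x⟫_ℂ := by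
        have := ContinuousLinearMap.adjoint_inner_left P x (P x)
        rwa [← ContinuousLinearMap.star_eq_adjoint, hPs.star_eq] at this
      rw [h3, inner_self_eq_zero] at h2
      exact h2
    · rintro h _ ⟨u, rfl⟩
      have h3 : ⟪P u, x⟫_ℂ = ⟪u, P x⟫_ℂ := by
        have := ContinuousLinearMap.adjoint_inner_left P x u
        rwa [← ContinuousLinearMap.star_eq_adjoint, hPs.star_eq] at this
      show ⟪P u, x⟫_ℂ = 0
      rw [h3, h, inner_zero_right]
  let V : H →L[ℂ] H := V0 ∘L K.orthogonalProjectionOnto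
  have hVP : V * P = T := by
    ext x
    show V0 (K.orthogonalProjectionOnto (P x)) = T x
    rw [← hV0 x]
    congr 1
    exact Submodule.orthogonalProjectionOnto_mem_subspace_eq_self (e x)
  have hVker : ∀ x : H, V x = 0 ↔ T x = 0 := by
    intro x
    rw [← hperp, ← norm_eq_zero]
    show ‖V0 (K.orthogonalProjectionOnto x)‖ = 0 ↔ _
    rw [hV0norm, norm_eq_zero, Submodule.orthogonalProjectionOnto_eq_zero_iff]
  have hVV : star V * V = K.starProjection := by
    let U : K →ₗᵢ[ℂ] H := ⟨V0.toLinearMap, hV0norm⟩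
    ext y
    refine ext_inner_left ℂ (fun x => ?_)
    have h1 : ⟪x, (star V * V) y⟫_ℂ = ⟪V x, V y⟫_ℂ := by
      rw [ContinuousLinearMap.star_eq_adjoint, mul_apply_eq_comp,
        ContinuousLinearMap.adjoint_inner_right]
    have h2 : ⟪V x, V y⟫_ℂ
        = ⟪K.orthogonalProjectionOnto x, K.orthogonalProjectionOnto y⟫_ℂ :=
      U.inner_map_map _ _
    have h3 : ⟪K.orthogonalProjectionOnto x, K.orthogonalProjectionOnto y⟫_ℂ
        = ⟪x, K.starProjection y⟫_ℂ :=
      Submodule.inner_orthogonalProjectionOnto_eq_of_mem_right (K.orthogonalProjectionOnto y) x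
    rw [h1, h2, h3]
  refine ⟨V, ⟨?_, hVker, hVP⟩, ?_⟩
  · rw [mul_assoc, hVV]
    ext x
    show V0 (K.orthogonalProjectionOnto (K.starProjection x)) = V0 (K.orthogonalProjectionOnto x)
    congr 1
    exact Submodule.orthogonalProjectionOnto_mem_subspace_eq_self (K.orthogonalProjectionOnto x)
  · rintro W ⟨_, hWker, hWP⟩
    have h1 : (W - V) * P = 0 := by rw [sub_mul, hVP]; rw [← hP] at hWP; rw [hWP, sub_self]
    have h2 : W - V = 0 := by
      refine eq_zero_of_range_ker hPs h1 (fun y hy => ?_)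
      rw [hP, abs_apply_eq_zero_iff] at hy
      rw [sub_apply, (hWker y).2 hy, (hVker y).2 hy, sub_zero]
    exact sub_eq_zero.1 h2

/-- **Fixed points of the mean `λ`-Aluthge transform.** For `0 ≤ λ ≤ 1/2` a bounded operator `T` on
a complex Hilbert space satisfies `(Δ_λ(T) + Δ_{1-λ}(T)) / 2 = T` if and only if `T` is
quasi-normal, i.e. commutes with `T* T`. -/
theorem result (H : Type*) [NormedAddCommGroup H] [InnerProductSpace ℂ H] [CompleteSpace H]
    (l : ℝ) (hl0 : 0 ≤ l) (hl1 : l ≤ 1 / 2) (T V : H →L[ℂ] H) (hV : IsPolarPart T V) :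
    (1 / 2 : ℝ) • (aluthge T V l + aluthge T V (1 - l)) = T ↔ Commute T (star T * T) := by
  obtain ⟨h1, hker, hVP⟩ := hV
  have hP : 0 ≤ CFC.abs T := CFC.abs_nonneg T
  have hPP : CFC.abs T * CFC.abs T = star T * T := CFC.abs_mul_abs T
  have hVker : ∀ y, CFC.abs T y = 0 → V y = 0 := fun y hy =>
    (hker y).2 ((abs_apply_eq_zero_iff T y).1 hy)
  set P := CFC.abs T with hPdef
  constructor
  · intro h
    have h2 : P ^ l * V * P ^ (1 - l) + P ^ (1 - l) * V * P ^ l = 2 * (V * P) := by
      rw [hVP]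
      have h3 : aluthge T V l + aluthge T V (1 - l) = (2 : ℝ) • T := by
        rw [← h, smul_smul, h]
        norm_num
      rw [aluthge, aluthge, sub_sub_cancel, ← hPdef] at h3
      rw [h3, two_smul, two_mul]
    have hcomm : P * V = V * P := by
      rcases hl0.eq_or_lt with h0 | h0
      · rw [← h0, CFC.rpow_zero P, sub_zero, CFC.rpow_one P] at h2
        rw [one_mul, mul_one, two_mul] at h2
        exact add_left_cancel h2
      · exact commute_of_fixed_polar hP hVker h0 (by linarith) h2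
    show T * (star T * T) = star T * T * T
    rw [← hPP]
    calc T * (P * P) = V * P * (P * P) := by rw [hVP]
      _ = (V * P) * P * P := by noncomm_ring
      _ = (P * V) * P * P := by rw [hcomm]
      _ = P * (V * P) * P := by noncomm_ring
      _ = P * (P * V) * P := by rw [hcomm]
      _ = P * P * (V * P) := by noncomm_ring
      _ = P * P * T := by rw [hVP]
  · intro h
    have hTP : P * T = T * P := by
      have h2 : P = cfc Real.sqrt (star T * T) := by
        rw [hPdef, CFC.abs, CFC.sqrt_eq_real_sqrt _ (star_mul_self_nonneg T), cfcₙ_eq_cfc]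
      have h3 : Commute (star T * T) T := h.symm
      rw [h2]
      exact (h3.cfc_real _).eq
    have hcomm : P * V = V * P := by
      have h3 : (P * V - V * P) * P = 0 := by
        calc (P * V - V * P) * P = P * (V * P) - (V * P) * P := by noncomm_ring
          _ = 0 := by rw [hVP, hTP, sub_self]
      have h4 := eq_zero_of_range_ker hP.isSelfAdjoint h3 (fun y hy => by
        have : (P * V - V * P) y = P (V y) - V (P y) := rfl
        rw [this, hVker y hy, hy, map_zero, map_zero, sub_zero])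
      exact sub_eq_zero.1 h4
    have e1 : aluthge T V l = T := by
      rw [aluthge, ← hPdef, commute_rpow hP hcomm, mul_assoc,
        rpow_mul_rpow_one_sub hP hl0 (by linarith), hVP]
    have e2 : aluthge T V (1 - l) = T := by
      rw [aluthge, ← hPdef, commute_rpow hP hcomm, mul_assoc,
        rpow_mul_rpow_one_sub hP (by linarith) (by linarith), hVP]
    rw [e1, e2, ← two_smul ℝ T, smul_smul]
    norm_num

end Pool.Agent.Results.MP_a9e7a9_an.MeanAluthgeFixedPoints
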